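import Pool.Agent.W973.IP.Defs

/-!
# Continuity and derivatives of `G`
-/

set_option autoImplicit false

namespace Pool.Agent.W7.IP

open Pool.Agent.W973.IP MvPolynomial

/-- Continuity of the value of a polynomial. -/
theorem cont_aeval {Y σ : Type} [TopologicalSpace Y] (P : MvPolynomial σ ℚ) (f : Y → σ → ℝ)
    (h : ∀ x, Continuous fun y => f y x) : Continuous fun y => aeval (f y) P := by
  induction P using MvPolynomial.induction_on with
  | C a => simp only [aeval_C]; exact continuous_const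
  | add p q hp hq => simp only [map_add]; exact hp.add hq
  | mul_X p i hp => simp only [map_mul, aeval_X]; exact hp.mul (h i)

/-- Chain rule. -/
theorem hasDerivAt_aeval {σ : Type} [Fintype σ] [DecidableEq σ] (P : MvPolynomial σ ℚ)
    (φ : ℝ → σ → ℝ) (φ' : σ → ℝ) (t : ℝ) (h : ∀ x, HasDerivAt (fun t => φ t x) (φ' x) t) :
    HasDerivAt (fun t => aeval (φ t) P) (∑ x, φ' x * aeval (φ t) (pderiv x P)) t := by
  induction P using MvPolynomial.induction_on with
  | C a =>
    simp only [aeval_C, pderiv_C, map_zero, mul_zero, Finset.sum_const_zero]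
    exact hasDerivAt_const _ _
  | add p q hp hq =>
    simp only [map_add, mul_add, Finset.sum_add_distrib]
    exact hp.add hq
  | mul_X p i hp =>
    have h2 := hp.mul (h i)
    simp only [map_mul, aeval_X]
    refine h2.congr_deriv ?_
    have h3 : ∀ x : σ, φ' x * (aeval (φ t) (pderiv x (p * MvPolynomial.X i)) : ℝ) =
        (φ' x * aeval (φ t) (pderiv x p)) * φ t i +
          (if x = i then (aeval (φ t) p : ℝ) * φ' i else 0) := by
      intro x
      rw [pderiv_mul, map_add, map_mul, map_mul, pderiv_X, aeval_X]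
      by_cases hx : x = i
      · subst hx; simp; ring
      · rw [if_neg hx, Pi.single_eq_of_ne (Ne.symm hx)]; simp; ring
    rw [Finset.sum_congr rfl fun x _ => h3 x, Finset.sum_add_distrib, ← Finset.sum_mul,
      Finset.sum_ite_eq' Finset.univ i, if_pos (Finset.mem_univ i)]

theorem cont_X {n : ℕ} : Continuous (Pool.Agent.W973.IP.X : Vec n → ℝ) := by
  unfold Pool.Agent.W973.IP.X
  fun_prop

theorem cont_Lf {n : ℕ} (s : ℕ) : Continuous (Lf s : Vec n → ℝ) := by
  unfold Lf
  fun_prop

theorem cont_ow {n : ℕ} (o : Option (Fin n)) : Continuous fun w : Vec n => ow w o := by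
  unfold ow
  cases o with
  | none => exact continuous_const
  | some j => exact continuous_apply j

theorem cont_hv {n : ℕ} (P : MvPolynomial (Fin n ⊕ Fin n) ℚ) :
    Continuous fun p : Vec n × Vec n => hv P p.1 p.2 := by
  unfold hv
  refine cont_aeval P (fun p : Vec n × Vec n => Sum.elim p.1 p.2) ?_
  rintro (x | x)
  · simp only [Sum.elim_inl]; fun_prop
  · simp only [Sum.elim_inr]; fun_prop

theorem cont_qa {n : ℕ} (a : Ft n → ℝ) :
    Continuous fun p : Vec n × Vec n => qa a p.1 p.2 := by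
  unfold qa
  refine ((((cont_X).comp continuous_snd).pow _).add ?_).add ?_
  · fun_prop
  · refine continuous_finsetSum _ fun t _ => continuous_const.mul ?_
    exact (((cont_Lf _).comp continuous_snd).pow _).mul ((cont_ow _).comp continuous_snd)

theorem cont_G {n : ℕ} (P : MvPolynomial (Fin n ⊕ Fin n) ℚ) (a : Ft n → ℝ) :
    Continuous fun p : ℝ × ℝ × Vec n × Vec n => G P a p.1 p.2.1 p.2.2.1 p.2.2.2 := by
  unfold G
  have h1 := (cont_hv P).comp
    (continuous_snd.comp continuous_snd : Continuous fun p : ℝ × ℝ × Vec n × Vec n => p.2.2)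
  have h2 := (cont_qa a).comp
    (continuous_snd.comp continuous_snd : Continuous fun p : ℝ × ℝ × Vec n × Vec n => p.2.2)
  have h3 := (cont_X (n := n)).comp (continuous_snd.comp (continuous_snd.comp continuous_snd) :
    Continuous fun p : ℝ × ℝ × Vec n × Vec n => p.2.2.2)
  refine ((h1.mul (h3.pow _)).sub ?_).add ?_
  · fun_prop
  · exact (continuous_fst.comp continuous_snd).mul h2

theorem cont_GU {n : ℕ} (P : MvPolynomial (Fin n ⊕ Fin n) ℚ) (a : Ft n → ℝ) (c e : ℝ)
    (l : Fin n) : Continuous fun p : Vec n × Vec n => GU P a c e l p.1 p.2 := by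
  unfold GU
  refine (((cont_hv _).mul ((cont_X.comp continuous_snd).pow _)).sub ?_).add ?_
  · fun_prop
  · exact continuous_const

theorem der_U {n : ℕ} (P : MvPolynomial (Fin n ⊕ Fin n) ℚ) (a : Ft n → ℝ) (c e : ℝ)
    (u w d : Vec n) (t : ℝ) :
    HasDerivAt (fun t : ℝ => G P a c e (u + t • d) w)
      (∑ l, d l * GU P a c e l (u + t • d) w) t := by
  have hc : ∀ l, HasDerivAt (fun t : ℝ => (u + t • d) l) (d l) t := by
    intro l
    simp only [Pi.add_apply, Pi.smul_apply, smul_eq_mul]
    simpa using ((hasDerivAt_id t).mul_const (d l)).const_add (u l)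
  have h1 : HasDerivAt (fun t : ℝ => hv P (u + t • d) w)
      (∑ l, d l * hv (pderiv (Sum.inl l) P) (u + t • d) w) t := by
    have := hasDerivAt_aeval P (fun t => Sum.elim (u + t • d) w) (Sum.elim d (fun _ => 0)) t (by
      rintro (x | x)
      · simpa using hc x
      · simpa using hasDerivAt_const t (w x))
    refine this.congr_deriv ?_
    rw [Fintype.sum_sum_type]
    simp [hv]
  have h2 : HasDerivAt (fun t : ℝ => ∑ l, (u + t • d) l ^ 6)
      (∑ l, ((6 : ℕ) : ℝ) * (u + t • d) l ^ (6 - 1) * d l) t :=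
    HasDerivAt.fun_sum fun l _ => (hc l).fun_pow 6
  have h3 : HasDerivAt (fun t : ℝ => qa a (u + t • d) w) (∑ l, a (Sum.inl l) * d l) t := by
    unfold qa
    refine ((HasDerivAt.fun_sum fun l _ => (hc l).const_mul (a (Sum.inl l))).const_add
      _).add_const _
  have h4 := ((h1.mul_const (Pool.Agent.W973.IP.X w ^ NN n)).sub (h2.const_mul c)).add
    (h3.const_mul e)
  refine h4.congr_deriv ?_
  unfold GU
  rw [Finset.sum_mul, Finset.mul_sum, Finset.mul_sum, ← Finset.sum_sub_distrib,
    ← Finset.sum_add_distrib]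
  refine Finset.sum_congr rfl fun l _ => ?_
  push_cast
  ring

theorem der_W {n : ℕ} (P : MvPolynomial (Fin n ⊕ Fin n) ℚ) (a : Ft n → ℝ) (c e : ℝ)
    (u w : Vec n) (j : Fin n) :
    HasDerivAt (fun t : ℝ => G P a c e u (w + t • (Pi.single j 1 : Vec n)))
      (GW P a c e j u w) 0 := by
  have h0 : w + (0 : ℝ) • (Pi.single j 1 : Vec n) = w := by simp
  have hc : ∀ l, HasDerivAt (fun t : ℝ => (w + t • (Pi.single j 1 : Vec n)) l)
      ((Pi.single j 1 : Vec n) l) 0 := by
    intro l
    simp only [Pi.add_apply, Pi.smul_apply, smul_eq_mul]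
    simpa using ((hasDerivAt_id (0 : ℝ)).mul_const ((Pi.single j 1 : Vec n) l)).const_add (w l)
  have h1 : HasDerivAt (fun t : ℝ => hv P u (w + t • (Pi.single j 1 : Vec n)))
      (hv (pderiv (Sum.inr j) P) u w) 0 := by
    have := hasDerivAt_aeval P (fun t => Sum.elim u (w + t • (Pi.single j 1 : Vec n)))
      (Sum.elim (fun _ => 0) (Pi.single j 1 : Vec n)) 0 (by
      rintro (x | x)
      · simpa using hasDerivAt_const (0 : ℝ) (u x)
      · simpa using hc x)
    refine this.congr_deriv ?_
    rw [Fintype.sum_sum_type]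
    simp only [Sum.elim_inl, zero_mul, Finset.sum_const_zero, Sum.elim_inr, zero_add, h0, hv]
    rw [Finset.sum_eq_single j]
    · simp
    · intro b _ hb
      rw [Pi.single_eq_of_ne hb, zero_mul]
    · simp
  have hX : HasDerivAt (fun t : ℝ => Pool.Agent.W973.IP.X (w + t • (Pi.single j 1 : Vec n)))
      (2 * w j) 0 := by
    unfold Pool.Agent.W973.IP.X
    refine ((HasDerivAt.fun_sum fun l _ => (hc l).fun_pow 2).const_add 1).congr_deriv ?_
    rw [h0, Finset.sum_eq_single j]
    · simp
    · intro b _ hb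
      rw [Pi.single_eq_of_ne hb, mul_zero]
    · simp
  have hL : ∀ s : ℕ, HasDerivAt (fun t : ℝ => Lf s (w + t • (Pi.single j 1 : Vec n)))
      ((s : ℝ) ^ (j : ℕ)) 0 := by
    intro s
    unfold Lf
    refine (HasDerivAt.fun_sum fun l _ => (hc l).const_mul ((s : ℝ) ^ (l : ℕ))).congr_deriv ?_
    rw [Finset.sum_eq_single j]
    · simp
    · intro b _ hb
      rw [Pi.single_eq_of_ne hb, mul_zero]
    · simp
  have hO : ∀ o : Option (Fin n), HasDerivAt
      (fun t : ℝ => ow (w + t • (Pi.single j 1 : Vec n)) o) (if o = some j then 1 else 0) 0 := by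
    intro o
    cases o with
    | none => simpa [ow] using hasDerivAt_const (0 : ℝ) (1 : ℝ)
    | some i =>
      have := hc i
      simp only [ow, Option.elim_some, Option.some.injEq]
      refine this.congr_deriv ?_
      by_cases hij : i = j
      · subst hij; simp
      · rw [if_neg hij, Pi.single_eq_of_ne hij]
  have hq : HasDerivAt (fun t : ℝ => qa a u (w + t • (Pi.single j 1 : Vec n)))
      (((n : ℝ) + 2) * Pool.Agent.W973.IP.X w ^ (n + 1) * (2 * w j) +
      ∑ t : Tx n, a (Sum.inr t) *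
        (((t.2.2 : ℕ) : ℝ) * Lf (t.2.1 : ℕ) w ^ ((t.2.2 : ℕ) - 1) *
            (((t.2.1 : ℕ) : ℝ) ^ (j : ℕ)) * ow w t.1 +
          Lf (t.2.1 : ℕ) w ^ (t.2.2 : ℕ) * (if t.1 = some j then 1 else 0))) 0 := by
    unfold qa
    have hA := (hX.fun_pow (n + 2)).add_const (∑ l, a (Sum.inl l) * u l)
    have hB := HasDerivAt.fun_sum (u := Finset.univ) fun (t : Tx n) _ =>
      (((hL (t.2.1 : ℕ)).fun_pow (t.2.2 : ℕ)).fun_mul (hO t.1)).const_mul (a (Sum.inr t))
    refine (hA.fun_add hB).congr_deriv ?_
    simp only [h0]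
    congr 1
    push_cast
    rfl
  have h4 := ((h1.fun_mul (hX.fun_pow (NN n))).sub_const (c * ∑ l, u l ^ 6)).fun_add
    (hq.const_mul e)
  refine h4.congr_deriv ?_
  simp only [h0]
  unfold GW
  ring

theorem der : S_DER := fun _ P a => ⟨cont_G P a, cont_GU P a, der_U P a, der_W P a⟩

end Pool.Agent.W7.IP
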